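import Pool.Agent.Y994.KW.Stm

/-!
Disjoint crossings on the cylinder (helper961, job KW-DCP of helper994).
-/

set_option autoImplicit false

namespace Pool.Agent.Y961.KW

open Y994.KW Finset

theorem mem_Tl {w h : ℕ} {τ : Pt} : τ ∈ Tl w h ↔ 0 ≤ τ.1 ∧ τ.1 < w ∧ 0 ≤ τ.2 ∧ τ.2 < h := by
  unfold Tl
  simp only [Finset.mem_image, Finset.mem_product, Finset.mem_range]
  constructor
  · rintro ⟨⟨a, b⟩, ⟨h1, h2⟩, rfl⟩
    simp only at h1 h2 ⊢
    omega
  · rintro ⟨h1, h2, h3, h4⟩
    refine ⟨(τ.1.toNat, τ.2.toNat), ⟨by simp only; omega, by simp only; omega⟩, ?_⟩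
    apply Prod.ext
    · simp only
      omega
    · simp only
      omega

/-- the state for which the diagonal of parity `ε` of the tile `(j,t)` is open -/
def bt (ε j t : ℤ) : Bool := decide ((j + t - ε) % 2 = 1)

open Classical in
/-- the tiles of the slab whose diagonal of parity `ε` is open, shifted to the level zero -/
noncomputable def FF (n M : ℕ) (u ε : ℤ) (h : ℕ) (c : Fin M → Fin (2 * n + 1) → Bool) : Finset Pt :=
  (Tl (2 * n + 1) h).filter (fun τ => cfg n M c τ.1 (τ.2 + u) = bt ε τ.1 (τ.2 + u))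

/-- both ends of the diagonal are in the set -/
def Ends (u ε : ℤ) (P : Set Pt) (τ : Pt) : Prop :=
  (bt ε τ.1 (τ.2 + u) = false ∧ (τ.1, τ.2 + u) ∈ P ∧ (τ.1 + 1, τ.2 + u + 1) ∈ P) ∨
  (bt ε τ.1 (τ.2 + u) = true ∧ (τ.1 + 1, τ.2 + u) ∈ P ∧ (τ.1, τ.2 + u + 1) ∈ P)

open Classical in
/-- the tiles of a crossing -/
noncomputable def GG (n M : ℕ) (u ε : ℤ) (h : ℕ) (c : Fin M → Fin (2 * n + 1) → Bool)
    (P : Set Pt) : Finset Pt := (FF n M u ε h c).filter (Ends u ε P)

section cross

variable {n M : ℕ} {u ε : ℤ} {h : ℕ} {c : Fin M → Fin (2 * n + 1) → Bool} {P : Set Pt}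

theorem mem_slash (hP : P ⊆ Rc (2 * n + 1) u (u + h) ε) {p q : Pt} (hp : p ∈ P) (hq : q ∈ P)
    (hpq : q = p + (1, 1)) (hσ : cfg n M c p.1 p.2 = false) :
    (p.1, p.2 - u) ∈ GG n M u ε h c P := by
  classical
  subst hpq
  obtain ⟨a1, a2, a3, a4, a5⟩ := hP hp
  obtain ⟨b1, b2, b3, b4, b5⟩ := hP hq
  simp only [Prod.fst_add, Prod.snd_add] at b1 b2 b3 b4
  unfold Pty at a5
  have hb : bt ε p.1 p.2 = false := by
    unfold bt
    rw [decide_eq_false_iff_not]
    omega
  unfold GG FF
  rw [Finset.mem_filter, Finset.mem_filter, mem_Tl]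
  simp only [sub_add_cancel]
  refine ⟨⟨⟨a1, by push_cast; omega, by omega, by omega⟩, by rw [hσ, hb]⟩, Or.inl ?_⟩
  simp only [sub_add_cancel]
  exact ⟨hb, hp, hq⟩

theorem mem_back (hP : P ⊆ Rc (2 * n + 1) u (u + h) ε) {p q : Pt} (hp : p ∈ P) (hq : q ∈ P)
    (hpq : q = p + (-1, 1)) (hσ : cfg n M c q.1 p.2 = true) :
    (q.1, p.2 - u) ∈ GG n M u ε h c P := by
  classical
  obtain ⟨a1, a2, a3, a4, a5⟩ := hP hp
  obtain ⟨b1, b2, b3, b4, b5⟩ := hP hq
  have e1 : q.1 = p.1 - 1 := by rw [hpq]; simp only [Prod.fst_add]; ring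
  have e2 : q.2 = p.2 + 1 := by rw [hpq]; simp only [Prod.snd_add]
  unfold Pty at a5
  have hb : bt ε q.1 p.2 = true := by
    unfold bt
    rw [decide_eq_true_iff]
    omega
  unfold GG FF
  rw [Finset.mem_filter, Finset.mem_filter, mem_Tl]
  simp only [sub_add_cancel]
  refine ⟨⟨⟨b1, by push_cast; omega, by omega, by omega⟩, by rw [hσ, hb]⟩, Or.inr ?_⟩
  simp only [sub_add_cancel]
  refine ⟨hb, ?_, ?_⟩
  · have : ((q.1 + 1, p.2) : Pt) = p := by
      apply Prod.ext
      · simp only
        omega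
      · rfl
    rw [this]
    exact hp
  · have : ((q.1, p.2 + 1) : Pt) = q := by
      apply Prod.ext
      · rfl
      · simp only
        omega
    rw [this]
    exact hq

theorem step_OB (hP : P ⊆ Rc (2 * n + 1) u (u + h) ε) {a b : Pt} (ha : a ∈ P) (hb : b ∈ P)
    (hab : Op (cfg n M c) a b) :
    OB (ε - u) (GG n M u ε h c P) (a.1, a.2 - u) (b.1, b.2 - u) := by
  have ea : Pty (ε - u) (a.1, a.2 - u) := by
    have := (hP ha).2.2.2.2
    unfold Pty at this ⊢
    simp only
    omega
  have eb : Pty (ε - u) (b.1, b.2 - u) := by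
    have := (hP hb).2.2.2.2
    unfold Pty at this ⊢
    simp only
    omega
  refine ⟨ea, eb, ?_⟩
  rcases hab with ⟨h1, h2⟩ | ⟨h1, h2⟩ | ⟨h1, h2⟩ | ⟨h1, h2⟩
  · refine Or.inl ⟨?_, mem_slash hP ha hb h1 h2⟩
    rw [h1]
    apply Prod.ext
    · rfl
    · simp only [Prod.snd_add]
      ring
  · refine Or.inr (Or.inl ⟨?_, mem_slash hP hb ha h1 h2⟩)
    rw [h1]
    apply Prod.ext
    · rfl
    · simp only [Prod.snd_add]
      ring
  · refine Or.inr (Or.inr (Or.inl ⟨?_, mem_back (p := a) (q := b) hP ha hb h1 h2⟩))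
    rw [h1]
    apply Prod.ext
    · rfl
    · simp only [Prod.snd_add]
      ring
  · refine Or.inr (Or.inr (Or.inr ⟨?_, mem_back (p := b) (q := a) hP hb ha h1 h2⟩))
    rw [h1]
    apply Prod.ext
    · rfl
    · simp only [Prod.snd_add]
      ring

/-- disjoint crossings -/
theorem cross {r : ℕ} (hDC : DC (2 * n + 1) u (u + h) ε r (cfg n M c)) :
    ∃ f : Fin r → Finset Pt, (∀ i, f i ⊆ FF n M u ε h c) ∧
      (∀ i j, i ≠ j → Disjoint (f i) (f j)) ∧ ∀ i, HC (ε - u) (2 * n + 1) (f i) := by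
  classical
  obtain ⟨P, hP1, hP2, hP3⟩ := hDC
  refine ⟨fun i => GG n M u ε h c (P i), fun i => Finset.filter_subset _ _, ?_, ?_⟩
  · intro i j hij
    rw [Finset.disjoint_left]
    intro τ h1 h2
    have h3 := (Finset.mem_filter.mp h1).2
    have h4 := (Finset.mem_filter.mp h2).2
    have h5 := Set.disjoint_left.mp (hP2 i j hij)
    rcases h3 with ⟨e1, e2, -⟩ | ⟨e1, e2, -⟩ <;> rcases h4 with ⟨g1, g2, -⟩ | ⟨g1, g2, -⟩
    · exact h5 e2 g2
    · rw [e1] at g1
      exact absurd g1 (by decide)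
    · rw [e1] at g1
      exact absurd g1 (by decide)
    · exact h5 e2 g2
  · intro i
    obtain ⟨x, -, y, -, hx, hy, hxy⟩ := hP3 i
    refine ⟨(x.1, x.2 - u), (y.1, y.2 - u), hx, by simp only; rw [hy]; push_cast; ring, ?_⟩
    exact Relation.ReflTransGen.lift
      (r := fun a b => a ∈ P i ∧ b ∈ P i ∧ Op (cfg n M c) a b) (fun z : Pt => ((z.1, z.2 - u) : Pt))
      (fun a b hab => step_OB (hP1 i) hab.1 hab.2.1 hab.2.2) _ _ hxy

end cross

section unif

variable {n M : ℕ} {u ε : ℤ} {h : ℕ}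

open Classical in
/-- change the tiles of `D` -/
noncomputable def xr (u : ℤ) (D : Finset Pt) (c : Fin M → Fin (2 * n + 1) → Bool) :
    Fin M → Fin (2 * n + 1) → Bool :=
  fun i j => xor (c i j) (decide ((((j : ℕ) : ℤ), ((i : ℕ) : ℤ) - u) ∈ D))

theorem xr_xr (D : Finset Pt) (c : Fin M → Fin (2 * n + 1) → Bool) : xr u D (xr u D c) = c := by
  funext i j
  unfold xr
  rw [Bool.xor_assoc, Bool.xor_self, Bool.xor_false]

theorem FF_xr (hu : 0 ≤ u) (huM : u + h ≤ M) {D : Finset Pt} (hD : D ⊆ Tl (2 * n + 1) h)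
    (c : Fin M → Fin (2 * n + 1) → Bool) :
    FF n M u ε h (xr u D c) = symmDiff (FF n M u ε h c) D := by
  classical
  ext τ
  rw [Finset.mem_symmDiff]
  unfold FF
  rw [Finset.mem_filter, Finset.mem_filter]
  by_cases hτ : τ ∈ Tl (2 * n + 1) h
  · have h1 := mem_Tl.mp hτ
    push_cast at h1
    have h2 : 0 ≤ τ.2 + u ∧ τ.2 + u < M := ⟨by omega, by omega⟩
    have h3 : cfg n M (xr u D c) τ.1 (τ.2 + u) =
        xor (cfg n M c τ.1 (τ.2 + u)) (decide (τ ∈ D)) := by
      unfold cfg
      rw [dif_pos h2, dif_pos h2]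
      unfold xr
      congr 1
      have h4 : ((((H906K.jx (2 * n) τ.1 : Fin (2 * n + 1)) : ℕ) : ℤ),
          (((⟨(τ.2 + u).toNat, by omega⟩ : Fin M) : ℕ) : ℤ) - u) = τ := by
        apply Prod.ext
        · change (((τ.1 % (((2 * n : ℕ) : ℤ) + 1)).toNat : ℕ) : ℤ) = τ.1
          rw [Int.emod_eq_of_lt h1.1 (by push_cast; omega)]
          omega
        · simp only
          omega
      rw [h4]
    rw [h3]
    by_cases hD' : τ ∈ D
    · simp only [hτ, hD', true_and, decide_true, Bool.xor_true, not_true, and_false, false_or]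
      cases cfg n M c τ.1 (τ.2 + u) <;> cases bt ε τ.1 (τ.2 + u) <;> decide
    · simp only [hτ, hD', true_and, decide_false, Bool.xor_false, not_false_iff, and_true, false_and,
        or_false]
  · have hD' : τ ∉ D := fun h => hτ (hD h)
    simp only [hτ, hD', false_and, or_self]

open Classical in
theorem card_fiber (hu : 0 ≤ u) (huM : u + h ≤ M) {G : Finset Pt} (hG : G ⊆ Tl (2 * n + 1) h) :
    ((univ : Finset (Fin M → Fin (2 * n + 1) → Bool)).filter (fun c => FF n M u ε h c = G)).card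
      = ((univ : Finset (Fin M → Fin (2 * n + 1) → Bool)).filter
          (fun c => FF n M u ε h c = ∅)).card := by
  refine Finset.card_nbij' (xr u G) (xr u G) ?_ ?_ ?_ ?_
  · intro c hc
    have h1 : FF n M u ε h c = G := by simpa using hc
    have h2 : FF n M u ε h (xr u G c) = ∅ := by
      rw [FF_xr hu huM hG, h1, symmDiff_self]
      rfl
    simpa using h2
  · intro c hc
    have h1 : FF n M u ε h c = ∅ := by simpa using hc
    have h2 : FF n M u ε h (xr u G c) = G := by
      rw [FF_xr hu huM hG, h1]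
      exact bot_symmDiff G
    simpa using h2
  · intro c _
    exact xr_xr _ _
  · intro c _
    exact xr_xr _ _

theorem card_all : (Fintype.card (Fin M → Fin (2 * n + 1) → Bool) : ℝ) = 2 ^ ((2 * n + 1) * M) := by
  rw [Fintype.card_fun, Fintype.card_fun, Fintype.card_bool, Fintype.card_fin, Fintype.card_fin,
    ← pow_mul]
  push_cast
  rfl

/-- the set of open tiles is uniformly distributed -/
theorem pr_eq (hu : 0 ≤ u) (huM : u + h ≤ M) (A : Finset Pt → Prop) :
    pr n M (fun c => A (FF n M u ε h c)) = prF (Tl (2 * n + 1) h) A := by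
  classical
  set K : ℕ := ((univ : Finset (Fin M → Fin (2 * n + 1) → Bool)).filter
          (fun c => FF n M u ε h c = ∅)).card with hK
  have hmaps : ∀ c : Fin M → Fin (2 * n + 1) → Bool, FF n M u ε h c ∈ (Tl (2 * n + 1) h).powerset :=
    fun c => Finset.mem_powerset.mpr (Finset.filter_subset _ _)
  have h1 : Fintype.card (Fin M → Fin (2 * n + 1) → Bool) = 2 ^ (Tl (2 * n + 1) h).card * K := by
    rw [← Finset.card_univ, Finset.card_eq_sum_card_fiberwise (f := FF n M u ε h)
      (t := (Tl (2 * n + 1) h).powerset) (fun c _ => hmaps c)]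
    rw [Finset.sum_congr rfl (fun G hG => card_fiber hu huM (Finset.mem_powerset.mp hG)),
      Finset.sum_const, Finset.card_powerset, smul_eq_mul]
  have h2 : ((univ : Finset (Fin M → Fin (2 * n + 1) → Bool)).filter
      (fun c => A (FF n M u ε h c))).card = ((Tl (2 * n + 1) h).powerset.filter A).card * K := by
    rw [Finset.card_eq_sum_card_fiberwise (f := FF n M u ε h)
      (t := (Tl (2 * n + 1) h).powerset.filter A) (fun c hc => by
        have hc' := (Finset.mem_filter.mp (Finset.mem_coe.mp hc)).2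
        exact Finset.mem_coe.mpr (Finset.mem_filter.mpr ⟨hmaps c, hc'⟩))]
    have h3 : ∀ G ∈ (Tl (2 * n + 1) h).powerset.filter A,
        (((univ : Finset (Fin M → Fin (2 * n + 1) → Bool)).filter
          (fun c => A (FF n M u ε h c))).filter (fun c => FF n M u ε h c = G)).card = K := by
      intro G hG
      obtain ⟨hG1, hG2⟩ := Finset.mem_filter.mp hG
      rw [hK, ← card_fiber hu huM (Finset.mem_powerset.mp hG1), Finset.filter_filter]
      congr 1
      ext c
      simp only [Finset.mem_filter, Finset.mem_univ, true_and]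
      constructor
      · rintro ⟨-, h⟩
        exact h
      · intro h
        exact ⟨by rw [h]; exact hG2, h⟩
    rw [Finset.sum_congr rfl h3, Finset.sum_const, smul_eq_mul]
  have h3 : (2 : ℝ) ^ ((2 * n + 1) * M) = 2 ^ (Tl (2 * n + 1) h).card * K := by
    rw [← card_all (n := n) (M := M), h1]
    push_cast
    rfl
  have hK0 : (K : ℝ) ≠ 0 := by
    intro h0
    rw [h0, mul_zero] at h3
    have : (0 : ℝ) < 2 ^ ((2 * n + 1) * M) := by positivity
    linarith
  unfold pr H906K.Ex prF
  rw [h3, Finset.sum_boole]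
  have h4 : (((univ : Finset (Fin M → Fin (2 * n + 1) → Bool)).filter
      (fun c => A (FF n M u ε h c))).card : ℝ)
      = (((Tl (2 * n + 1) h).powerset.filter A).card : ℝ) * K := by
    rw [h2]
    push_cast
    rfl
  rw [h4]
  rw [mul_div_mul_right _ _ hK0]

end unif

theorem prF_mono {S S' : Finset Pt} (hS : S ⊆ S') {A : Finset Pt → Prop}
    (hA : ∀ F F' : Finset Pt, F ⊆ F' → A F → A F') : prF S A ≤ prF S' A := by
  classical
  unfold prF
  have h1 : ((S.powerset.filter A) ×ˢ (S' \ S).powerset).card ≤ (S'.powerset.filter A).card := by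
    refine Finset.card_le_card_of_injOn (fun p => p.1 ∪ p.2) ?_ ?_
    · intro p hp
      have hp' := Finset.mem_product.mp (Finset.mem_coe.mp hp)
      obtain ⟨h2, h3⟩ := Finset.mem_filter.mp hp'.1
      refine Finset.mem_coe.mpr (Finset.mem_filter.mpr ⟨Finset.mem_powerset.mpr ?_, ?_⟩)
      · exact Finset.union_subset ((Finset.mem_powerset.mp h2).trans hS)
          ((Finset.mem_powerset.mp hp'.2).trans Finset.sdiff_subset)
      · exact hA _ _ Finset.subset_union_left h3
    · intro p hp q hq hpq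
      have hp' := Finset.mem_product.mp (Finset.mem_coe.mp hp)
      have hq' := Finset.mem_product.mp (Finset.mem_coe.mp hq)
      have a1 := Finset.mem_powerset.mp (Finset.mem_filter.mp hp'.1).1
      have a2 := Finset.mem_powerset.mp hp'.2
      have b1 := Finset.mem_powerset.mp (Finset.mem_filter.mp hq'.1).1
      have b2 := Finset.mem_powerset.mp hq'.2
      have e : p.1 ∪ p.2 = q.1 ∪ q.2 := hpq
      have key : ∀ x, x ∈ p.1 ∪ p.2 ↔ x ∈ q.1 ∪ q.2 := fun x => by rw [e]
      apply Prod.ext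
      · ext x
        have := key x
        rw [Finset.mem_union, Finset.mem_union] at this
        constructor
        · intro hx
          rcases this.mp (Or.inl hx) with h | h
          · exact h
          · exact absurd (a1 hx) (Finset.mem_sdiff.mp (b2 h)).2
        · intro hx
          rcases this.mpr (Or.inl hx) with h | h
          · exact h
          · exact absurd (b1 hx) (Finset.mem_sdiff.mp (a2 h)).2
      · ext x
        have := key x
        rw [Finset.mem_union, Finset.mem_union] at this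
        constructor
        · intro hx
          rcases this.mp (Or.inr hx) with h | h
          · exact absurd (b1 h) (Finset.mem_sdiff.mp (a2 hx)).2
          · exact h
        · intro hx
          rcases this.mpr (Or.inr hx) with h | h
          · exact absurd (a1 h) (Finset.mem_sdiff.mp (b2 hx)).2
          · exact h
  rw [Finset.card_product, Finset.card_powerset] at h1
  have h2 : S'.card = (S' \ S).card + S.card := (Finset.card_sdiff_add_card_eq_card hS).symm
  rw [h2, pow_add, div_le_div_iff₀ (by positivity) (by positivity)]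
  have h3 : ((S.powerset.filter A).card : ℝ) * 2 ^ (S' \ S).card ≤ (S'.powerset.filter A).card := by
    exact_mod_cast h1
  calc ((S.powerset.filter A).card : ℝ) * (2 ^ (S' \ S).card * 2 ^ S.card)
      = (((S.powerset.filter A).card : ℝ) * 2 ^ (S' \ S).card) * 2 ^ S.card := by ring
    _ ≤ (S'.powerset.filter A).card * 2 ^ S.card :=
        mul_le_mul_of_nonneg_right h3 (by positivity)

theorem pr_mono {n M : ℕ} {A B : (Fin M → Fin (2 * n + 1) → Bool) → Prop} (h : ∀ c, A c → B c) :
    pr n M A ≤ pr n M B := by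
  classical
  unfold pr H906K.Ex
  refine div_le_div_of_nonneg_right (Finset.sum_le_sum fun c _ => ?_) (by positivity)
  by_cases h1 : A c
  · rw [if_pos h1, if_pos (h c h1)]
  · rw [if_neg h1]
    split_ifs <;> norm_num

theorem t_DCP : S_BKX → S_DCP := by
  rintro ⟨C, q, hC, hq0, hq1, hB⟩
  refine ⟨C, q, hC, hq0, hq1, ?_⟩
  intro n M u v ε m r hn hm hu huv hvM hvm
  set h : ℕ := (v - u).toNat with hh
  have hv : v = u + h := by omega
  set A : Finset Pt → Prop := fun F => ∃ f : Fin r → Finset Pt, (∀ i, f i ⊆ F) ∧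
    (∀ i j, i ≠ j → Disjoint (f i) (f j)) ∧ ∀ i, HC (ε - u) (2 * n + 1) (f i) with hA
  have h1 : pr n M (fun c => DC (2 * n + 1) u v ε r (cfg n M c))
      ≤ pr n M (fun c => A (FF n M u ε h c)) := by
    refine pr_mono fun c hc => ?_
    rw [hv] at hc
    exact cross hc
  have h2 : pr n M (fun c => A (FF n M u ε h c)) = prF (Tl (2 * n + 1) h) A :=
    pr_eq hu (by omega) A
  have h3 : prF (Tl (2 * n + 1) h) A ≤ prF (Tl (2 * n + 1) (m * (2 * n + 1))) A := by
    refine prF_mono ?_ ?_
    · intro τ hτ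
      rw [mem_Tl] at hτ ⊢
      have h5 : (h : ℤ) ≤ (m * (2 * n + 1) : ℕ) := by
        push_cast
        omega
      refine ⟨hτ.1, hτ.2.1, hτ.2.2.1, lt_of_lt_of_le hτ.2.2.2 h5⟩
    · rintro F F' hF ⟨f, f1, f2, f3⟩
      exact ⟨f, fun i => (f1 i).trans hF, f2, f3⟩
  exact h1.trans (h2.le.trans (h3.trans (hB (2 * n + 1) m r (ε - u) (by omega) hm)))

end Pool.Agent.Y961.KW
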